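import Pool.Agent.H242.GX.Stm5

/-! Project GX (helper242), part JET: comparison of Taylor coefficients. -/

set_option autoImplicit false

open Set Filter Topology

namespace Pool.Agent.H187.GX

open Pool.Agent.H242.GX

/-- a polynomial which is `O (s ^ n)` has no coefficients of order below `n` -/
theorem van (n : ℕ) : ∀ (c : ℕ → ℝ) (ρ K : ℝ), 0 < ρ →
    (∀ s : ℝ, s ≠ 0 → |s| < ρ → |∑ i ∈ Finset.range n, c i * s ^ i| ≤ K * |s| ^ n) →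
    ∀ i < n, c i = 0 := by
  induction n with
  | zero =>
    intro c ρ K _ _ i hi
    exact absurd hi (Nat.not_lt_zero i)
  | succ n ih =>
    intro c ρ K hρ h
    have hsum : ∀ s : ℝ, ∑ i ∈ Finset.range (n + 1), c i * s ^ i =
        s * (∑ i ∈ Finset.range n, c (i + 1) * s ^ i) + c 0 := by
      intro s
      rw [Finset.sum_range_succ', Finset.mul_sum, pow_zero, mul_one]
      congr 1
      refine Finset.sum_congr rfl fun i _ => ?_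
      rw [pow_succ]
      ring
    have hc0 : c 0 = 0 := by
      have h1 : Tendsto (fun s : ℝ => |∑ i ∈ Finset.range (n + 1), c i * s ^ i|) (𝓝[≠] 0)
          (𝓝 |c 0|) := by
        have hcont : Continuous (fun s : ℝ => |∑ i ∈ Finset.range (n + 1), c i * s ^ i|) := by
          fun_prop
        have h2 := hcont.tendsto 0
        have h3 : ∑ i ∈ Finset.range (n + 1), c i * (0 : ℝ) ^ i = c 0 := by
          rw [hsum 0, zero_mul, zero_add]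
        rw [h3] at h2
        exact h2.mono_left nhdsWithin_le_nhds
      have h4 : Tendsto (fun s : ℝ => K * |s| ^ (n + 1)) (𝓝[≠] 0) (𝓝 0) := by
        have hcont : Continuous (fun s : ℝ => K * |s| ^ (n + 1)) := by
          fun_prop
        have h5 := hcont.tendsto 0
        have h6 : K * |(0 : ℝ)| ^ (n + 1) = 0 := by
          simp
        rw [h6] at h5
        exact h5.mono_left nhdsWithin_le_nhds
      have h7 : |c 0| ≤ 0 := by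
        refine le_of_tendsto_of_tendsto h1 h4 ?_
        filter_upwards [self_mem_nhdsWithin, nhdsWithin_le_nhds (Metric.ball_mem_nhds (0 : ℝ) hρ)]
          with s hs hs2
        refine h s hs ?_
        rw [Metric.mem_ball, dist_zero_right, Real.norm_eq_abs] at hs2
        exact hs2
      exact abs_nonpos_iff.1 h7
    have hrec := ih (fun i => c (i + 1)) ρ K hρ (by
      intro s hs hs2
      have h1 := h s hs hs2
      rw [hsum, hc0, add_zero, abs_mul, pow_succ] at h1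
      have hpos : 0 < |s| := abs_pos.2 hs
      nlinarith [h1, hpos])
    intro i hi
    cases i with
    | zero => exact hc0
    | succ i => exact hrec i (by omega)

/-- the coefficients, `N = 6` -/
def cf6 (a : ℕ → ℝ) (k : ℝ) (i : ℕ) : ℝ :=
  if i = 0 then 0 else if i = 1 then (-2) * a 1 else if i = 2 then (-9) * k ^ 1 * a 1 else if i = 3 then (-16) * k ^ 2 * a 1 + (-2) * k ^ 1 * a 2 + (-2) * a 3 else if i = 4 then (-14) * k ^ 3 * a 1 + (-7) * k ^ 2 * a 2 + (-7) * k ^ 1 * a 3 else if i = 5 then (-6) * k ^ 4 * a 1 + (-9) * k ^ 3 * a 2 + (-11) * k ^ 2 * a 3 + (-4) * k ^ 1 * a 4 + (-2) * a 5 else 0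

/-- the remainder, `N = 6` -/
def rm6 (a : ℕ → ℝ) (k s : ℝ) : ℝ :=
  ((-1) * k ^ 5 * a 1 + (-5) * k ^ 4 * a 2 + (-10) * k ^ 3 * a 3 + (-10) * k ^ 2 * a 4 + (-5) * k ^ 1 * a 5) * s ^ 0 + ((-1) * k ^ 5 * a 2 + (-5) * k ^ 4 * a 3 + (-10) * k ^ 3 * a 4 + (-10) * k ^ 2 * a 5) * s ^ 1 + ((-1) * k ^ 5 * a 3 + (-5) * k ^ 4 * a 4 + (-10) * k ^ 3 * a 5) * s ^ 2 + ((-1) * k ^ 5 * a 4 + (-5) * k ^ 4 * a 5) * s ^ 3 + ((-1) * k ^ 5 * a 5) * s ^ 4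

theorem sum6 (a : ℕ → ℝ) (k s : ℝ) : ∑ i ∈ Finset.range 6, cf6 a k i * s ^ i =
    (0) * s ^ 0 + ((-2) * a 1) * s ^ 1 + ((-9) * k ^ 1 * a 1) * s ^ 2 + ((-16) * k ^ 2 * a 1 + (-2) * k ^ 1 * a 2 + (-2) * a 3) * s ^ 3 + ((-14) * k ^ 3 * a 1 + (-7) * k ^ 2 * a 2 + (-7) * k ^ 1 * a 3) * s ^ 4 + ((-6) * k ^ 4 * a 1 + (-9) * k ^ 3 * a 2 + (-11) * k ^ 2 * a 3 + (-4) * k ^ 1 * a 4 + (-2) * a 5) * s ^ 5 := by
  simp only [Finset.sum_range_succ, Finset.sum_range_zero, cf6]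
  norm_num

theorem idn6 (a : ℕ → ℝ) (k s x : ℝ) (hx : x * (1 + k * s) = -s) :
    (1 + k * s) ^ 5 * (∑ j ∈ Finset.range 6, a j * x ^ j - ∑ j ∈ Finset.range 6, a j * s ^ j) =
      ∑ i ∈ Finset.range 6, cf6 a k i * s ^ i + s ^ 6 * rm6 a k s := by
  rw [sum6]
  simp only [Finset.sum_range_succ, Finset.sum_range_zero, rm6]
  obtain ⟨y, hy⟩ : ∃ y, y = 1 + k * s := ⟨_, rfl⟩
  rw [← hy] at hx ⊢
  have e : y ^ 5 * (0 + a 0 * x ^ 0 + a 1 * x ^ 1 + a 2 * x ^ 2 + a 3 * x ^ 3 + a 4 * x ^ 4 + a 5 * x ^ 5 - (0 + a 0 * s ^ 0 + a 1 * s ^ 1 + a 2 * s ^ 2 + a 3 * s ^ 3 + a 4 * s ^ 4 + a 5 * s ^ 5)) =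
      a 0 * ((x * y) ^ 0 * y ^ 5 - s ^ 0 * y ^ 5) + a 1 * ((x * y) ^ 1 * y ^ 4 - s ^ 1 * y ^ 5) + a 2 * ((x * y) ^ 2 * y ^ 3 - s ^ 2 * y ^ 5) + a 3 * ((x * y) ^ 3 * y ^ 2 - s ^ 3 * y ^ 5) + a 4 * ((x * y) ^ 4 * y ^ 1 - s ^ 4 * y ^ 5) + a 5 * ((x * y) ^ 5 * y ^ 0 - s ^ 5 * y ^ 5) := by ring
  rw [e, hx, hy]
  ring


/-- the coefficients, `N = 8` -/
def cf8 (a : ℕ → ℝ) (k : ℝ) (i : ℕ) : ℝ :=
  if i = 0 then 0 else if i = 1 then (-2) * a 1 else if i = 2 then (-13) * k ^ 1 * a 1 else if i = 3 then (-36) * k ^ 2 * a 1 + (-2) * k ^ 1 * a 2 + (-2) * a 3 else if i = 4 then (-55) * k ^ 3 * a 1 + (-11) * k ^ 2 * a 2 + (-11) * k ^ 1 * a 3 else if i = 5 then (-50) * k ^ 4 * a 1 + (-25) * k ^ 3 * a 2 + (-27) * k ^ 2 * a 3 + (-4) * k ^ 1 * a 4 + (-2) * a 5 else if i = 6 then (-27) * k ^ 5 * a 1 + (-30) * k ^ 4 * a 2 + (-39) * k ^ 3 * a 3 + (-18) * k ^ 2 * a 4 + (-9)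 * k ^ 1 * a 5 else if i = 7 then (-8) * k ^ 6 * a 1 + (-20) * k ^ 5 * a 2 + (-36) * k ^ 4 * a 3 + (-34) * k ^ 3 * a 4 + (-22) * k ^ 2 * a 5 + (-6) * k ^ 1 * a 6 + (-2) * a 7 else 0

/-- the remainder, `N = 8` -/
def rm8 (a : ℕ → ℝ) (k s : ℝ) : ℝ :=
  ((-1) * k ^ 7 * a 1 + (-7) * k ^ 6 * a 2 + (-21) * k ^ 5 * a 3 + (-35) * k ^ 4 * a 4 + (-35) * k ^ 3 * a 5 + (-21) * k ^ 2 * a 6 + (-7) * k ^ 1 * a 7) * s ^ 0 + ((-1) * k ^ 7 * a 2 + (-7) * k ^ 6 * a 3 + (-21) * k ^ 5 * a 4 + (-35) * k ^ 4 * a 5 + (-35) * k ^ 3 * a 6 + (-21) * k ^ 2 * a 7) * s ^ 1 + ((-1) * k ^ 7 * a 3 + (-7) * k ^ 6 * a 4 + (-21) * k ^ 5 * a 5 + (-35) * k ^ 4 * a 6 + (-35) * k ^ 3 * a 7) * s ^ 2 + ((-1) * k ^ 7 * a 4 + (-7) * k ^ 6 * a 5 + (-21) * k ^ 5 * a 6 + (-35) * k ^ 4 * a 7) * s ^ 3 + ((-1) * k ^ 7 * a 5 + (-7) * k ^ 6 * a 6 + (-21) * k ^ 5 * a 7) * s ^ 4 + ((-1) * k ^ 7 * a 6 + (-7)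 * k ^ 6 * a 7) * s ^ 5 + ((-1) * k ^ 7 * a 7) * s ^ 6

theorem sum8 (a : ℕ → ℝ) (k s : ℝ) : ∑ i ∈ Finset.range 8, cf8 a k i * s ^ i =
    (0) * s ^ 0 + ((-2) * a 1) * s ^ 1 + ((-13) * k ^ 1 * a 1) * s ^ 2 + ((-36) * k ^ 2 * a 1 + (-2) * k ^ 1 * a 2 + (-2) * a 3) * s ^ 3 + ((-55) * k ^ 3 * a 1 + (-11) * k ^ 2 * a 2 + (-11) * k ^ 1 * a 3) * s ^ 4 + ((-50) * k ^ 4 * a 1 + (-25) * k ^ 3 * a 2 + (-27) * k ^ 2 * a 3 + (-4) * k ^ 1 * a 4 + (-2) * a 5) * s ^ 5 + ((-27) * k ^ 5 * a 1 + (-30) * k ^ 4 * a 2 + (-39) * k ^ 3 * a 3 + (-18) * k ^ 2 * a 4 + (-9) * k ^ 1 * a 5) * s ^ 6 + ((-8) * k ^ 6 * a 1 + (-20) * k ^ 5 * a 2 + (-36) * k ^ 4 * a 3 + (-34) * k ^ 3 * a 4 + (-22) * k ^ 2 * a 5 + (-6) * k ^ 1 * a 6 + (-2) * a 7) * s ^ 7 := by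
  simp only [Finset.sum_range_succ, Finset.sum_range_zero, cf8]
  norm_num

theorem idn8 (a : ℕ → ℝ) (k s x : ℝ) (hx : x * (1 + k * s) = -s) :
    (1 + k * s) ^ 7 * (∑ j ∈ Finset.range 8, a j * x ^ j - ∑ j ∈ Finset.range 8, a j * s ^ j) =
      ∑ i ∈ Finset.range 8, cf8 a k i * s ^ i + s ^ 8 * rm8 a k s := by
  rw [sum8]
  simp only [Finset.sum_range_succ, Finset.sum_range_zero, rm8]
  obtain ⟨y, hy⟩ : ∃ y, y = 1 + k * s := ⟨_, rfl⟩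
  rw [← hy] at hx ⊢
  have e : y ^ 7 * (0 + a 0 * x ^ 0 + a 1 * x ^ 1 + a 2 * x ^ 2 + a 3 * x ^ 3 + a 4 * x ^ 4 + a 5 * x ^ 5 + a 6 * x ^ 6 + a 7 * x ^ 7 - (0 + a 0 * s ^ 0 + a 1 * s ^ 1 + a 2 * s ^ 2 + a 3 * s ^ 3 + a 4 * s ^ 4 + a 5 * s ^ 5 + a 6 * s ^ 6 + a 7 * s ^ 7)) =
      a 0 * ((x * y) ^ 0 * y ^ 7 - s ^ 0 * y ^ 7) + a 1 * ((x * y) ^ 1 * y ^ 6 - s ^ 1 * y ^ 7) + a 2 * ((x * y) ^ 2 * y ^ 5 - s ^ 2 * y ^ 7) + a 3 * ((x * y) ^ 3 * y ^ 4 - s ^ 3 * y ^ 7) + a 4 * ((x * y) ^ 4 * y ^ 3 - s ^ 4 * y ^ 7) + a 5 * ((x * y) ^ 5 * y ^ 2 - s ^ 5 * y ^ 7) + a 6 * ((x * y) ^ 6 * y ^ 1 - s ^ 6 * y ^ 7) + a 7 * ((x * y) ^ 7 * y ^ 0 - s ^ 7 * y ^ 7) := by ring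
  rw [e, hx, hy]
  ring

/-- the analytic part -/
theorem main {N : ℕ} (f : ℝ → ℝ) (a c : ℕ → ℝ) (R : ℝ → ℝ) (k r C : ℝ) (hr : 0 < r)
    (hR : Continuous R)
    (hid : ∀ s x : ℝ, x * (1 + k * s) = -s →
      (1 + k * s) ^ (N - 1) * (∑ j ∈ Finset.range N, a j * x ^ j - ∑ j ∈ Finset.range N, a j * s ^ j) =
        ∑ i ∈ Finset.range N, c i * s ^ i + s ^ N * R s)
    (h1 : ∀ s : ℝ, |s| < r → |f s - ∑ j ∈ Finset.range N, a j * s ^ j| ≤ C * |s| ^ N)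
    (h2 : ∀ s : ℝ, |s| < r → 0 < 1 + k * s ∧ f (-s / (1 + k * s)) = f s) :
    ∀ i < N, c i = 0 := by
  obtain ⟨K2, hK2⟩ := (isCompact_Icc (a := (-1 : ℝ)) (b := 1)).exists_bound_of_continuousOn
    hR.continuousOn
  have hk : 0 < |k| + 1 := by positivity
  refine van N c (min (r / 2) (min 1 (1 / (2 * (|k| + 1)))))
    (2 ^ (N - 1) * (|C| * 2 ^ N + |C|) + K2) (by positivity) ?_
  intro s hs hs2
  have hs3 : |s| < r / 2 := hs2.trans_le (min_le_left _ _)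
  have hs4 : |s| < 1 := hs2.trans_le ((min_le_right _ _).trans (min_le_left _ _))
  have hs5 : |s| < 1 / (2 * (|k| + 1)) := hs2.trans_le ((min_le_right _ _).trans (min_le_right _ _))
  have hks : |k * s| ≤ 1 / 2 := by
    rw [abs_mul]
    rw [lt_div_iff₀ (by positivity)] at hs5
    have := abs_nonneg s
    have := abs_nonneg k
    nlinarith
  obtain ⟨g1, g2⟩ := abs_le.1 hks
  have hy : 1 / 2 ≤ 1 + k * s := by linarith
  have hy2 : |1 + k * s| ≤ 2 := by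
    rw [abs_of_pos (by linarith)]
    linarith
  obtain ⟨hy0, hf⟩ := h2 s (by linarith)
  obtain ⟨x, hx⟩ : ∃ x, x = -s / (1 + k * s) := ⟨_, rfl⟩
  rw [← hx] at hf
  have hxy : x * (1 + k * s) = -s := by
    rw [hx, div_mul_cancel₀ _ hy0.ne']
  have hxs : |x| ≤ 2 * |s| := by
    have h3 : |x| * |1 + k * s| = |s| := by
      rw [← abs_mul, hxy, abs_neg]
    rw [abs_of_pos hy0] at h3
    have := abs_nonneg x
    nlinarith
  have e1 := h1 x (by linarith)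
  have e2 := h1 s (by linarith)
  have hC : C ≤ |C| := le_abs_self C
  have e3 : |∑ j ∈ Finset.range N, a j * x ^ j - ∑ j ∈ Finset.range N, a j * s ^ j| ≤
      (|C| * 2 ^ N + |C|) * |s| ^ N := by
    have e4 : ∑ j ∈ Finset.range N, a j * x ^ j - ∑ j ∈ Finset.range N, a j * s ^ j =
        (f s - ∑ j ∈ Finset.range N, a j * s ^ j) - (f x - ∑ j ∈ Finset.range N, a j * x ^ j) := by
      rw [hf]
      ring
    rw [e4]
    have e5 : C * |x| ^ N ≤ |C| * (2 ^ N * |s| ^ N) := by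
      rw [← mul_pow]
      exact mul_le_mul hC (pow_le_pow_left₀ (abs_nonneg x) hxs N) (by positivity) (abs_nonneg C)
    have e6 : C * |s| ^ N ≤ |C| * |s| ^ N := mul_le_mul_of_nonneg_right hC (by positivity)
    have e7 := abs_sub (f s - ∑ j ∈ Finset.range N, a j * s ^ j)
      (f x - ∑ j ∈ Finset.range N, a j * x ^ j)
    linarith
  have e8 := hid s x hxy
  have e9 : ∑ i ∈ Finset.range N, c i * s ^ i = (1 + k * s) ^ (N - 1) *
      (∑ j ∈ Finset.range N, a j * x ^ j - ∑ j ∈ Finset.range N, a j * s ^ j) - s ^ N * R s := by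
    linarith
  rw [e9]
  have e10 : |(1 + k * s) ^ (N - 1) *
      (∑ j ∈ Finset.range N, a j * x ^ j - ∑ j ∈ Finset.range N, a j * s ^ j)| ≤
      2 ^ (N - 1) * ((|C| * 2 ^ N + |C|) * |s| ^ N) := by
    rw [abs_mul, abs_pow]
    exact mul_le_mul (pow_le_pow_left₀ (abs_nonneg _) hy2 _) e3 (abs_nonneg _) (by positivity)
  have e11 : |s ^ N * R s| ≤ |s| ^ N * K2 := by
    rw [abs_mul, abs_pow]
    apply mul_le_mul_of_nonneg_left _ (by positivity)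
    have := hK2 s ⟨by linarith [(abs_lt.1 hs4).1], by linarith [(abs_lt.1 hs4).2]⟩
    rwa [Real.norm_eq_abs] at this
  have e12 := abs_sub ((1 + k * s) ^ (N - 1) *
      (∑ j ∈ Finset.range N, a j * x ^ j - ∑ j ∈ Finset.range N, a j * s ^ j)) (s ^ N * R s)
  calc _ ≤ 2 ^ (N - 1) * ((|C| * 2 ^ N + |C|) * |s| ^ N) + |s| ^ N * K2 := by linarith
    _ = _ := by ring

theorem gx_JET : S_JET := by
  constructor
  · intro f a k r C hr h1 h2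
    have h := main (N := 6) f a (cf6 a k) (rm6 a k) k r C hr
      (by unfold rm6; fun_prop) (fun s x hx => idn6 a k s x hx) h1 h2
    have c1 := h 1 (by norm_num)
    have c3 := h 3 (by norm_num)
    have c5 := h 5 (by norm_num)
    simp only [cf6] at c1 c3 c5
    norm_num at c1 c3 c5
    have a1 : a 1 = 0 := by linarith
    rw [a1] at c3 c5
    have a3 : a 3 = -k * a 2 := by linarith
    rw [a3] at c5
    exact ⟨a1, a3, by linarith⟩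
  · intro f a k r C hr h1 h2
    have h := main (N := 8) f a (cf8 a k) (rm8 a k) k r C hr
      (by unfold rm8; fun_prop) (fun s x hx => idn8 a k s x hx) h1 h2
    have c1 := h 1 (by norm_num)
    have c3 := h 3 (by norm_num)
    have c5 := h 5 (by norm_num)
    have c7 := h 7 (by norm_num)
    simp only [cf8] at c1 c3 c5 c7
    norm_num at c1 c3 c5 c7
    have a1 : a 1 = 0 := by linarith
    rw [a1] at c3 c5 c7
    have a3 : a 3 = -k * a 2 := by linarith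
    have a5 : a 5 = k ^ 3 * a 2 - 2 * k * a 4 := by
      rw [a3] at c5
      linarith
    refine ⟨a1, a3, ?_⟩
    rw [a3, a5] at c7 ⊢
    linarith

end Pool.Agent.H187.GX
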